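import Pool.Agent.X119.Cong

/-!
# The conjectured congruences fail for `p = 31, 37` and for `p = 59`
-/

set_option autoImplicit false

namespace Pool.Agent.Results.MP_34a732_nt.FailsAsStated

open Finset Pool.Agent.X119.Cong

/-- `S_1(p)` -/
def S1 (p : ℕ) : ℚ := ∑ k ∈ range p, binom (-1 / 3) k * binom (-1 / 6) k * (27 / 16) ^ k

/-- `S_2(p)` -/
def S2 (p : ℕ) : ℚ := ∑ k ∈ range p, binom (-2 / 3) k * binom (-5 / 6) k * (27 / 16) ^ k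

/-- the factor of `S_2(p)` -/
def eps (p : ℕ) : ℚ := if p % 3 = 1 then 1 else -11 / 16

/-- the value for `3 ∣ p - 1` -/
def R1 (p : ℕ) (x y : ℤ) : ℚ := -(legQ (-11 + x / y) p * jacobiSym x 11 * (x - p / x))

/-- the value for `3 ∣ p - 2` -/
def R2 (p : ℕ) (x y : ℤ) : ℚ := -(1 / 4 * legQ (-11 + jacobiSym x 11 * x / y) p * (11 * y - p / y))

theorem fail31 : ¬ Cong 31 2 (S1 31) (R1 31 5 3) := by
  refine not_cong' (z := -(5 - 31 / 5)) ?_ (by decide +kernel)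
  have h1 : legQ (-11 + ((5 : ℤ) : ℚ) / ((3 : ℤ) : ℚ)) 31 = 1 := by
    have e : (-11 + ((5 : ℤ) : ℚ) / ((3 : ℤ) : ℚ)) = -28 / 3 := by norm_num
    rw [e, legQ]
    norm_num
  have h2 : jacobiSym 5 11 = 1 := by norm_num
  rw [R1, h1, h2]
  norm_num

theorem fail37 : ¬ Cong 37 2 (S1 37) (R1 37 7 3) := by
  refine not_cong' (z := -(-(7 - 37 / 7))) ?_ (by decide +kernel)
  have h1 : legQ (-11 + ((7 : ℤ) : ℚ) / ((3 : ℤ) : ℚ)) 37 = 1 := by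
    have e : (-11 + ((7 : ℤ) : ℚ) / ((3 : ℤ) : ℚ)) = -26 / 3 := by norm_num
    rw [e, legQ]
    norm_num
  have h2 : jacobiSym 7 11 = -1 := by norm_num
  rw [R1, h1, h2]
  norm_num

theorem fail59 : ¬ Cong 59 2 (S1 59) (R2 59 15 1) := by
  refine not_cong' (z := -(11 - 59) / 4) ?_ (by decide +kernel)
  have h2 : jacobiSym 15 11 = 1 := by norm_num
  have h1 : legQ (-11 + ((1 : ℤ) : ℚ) * ((15 : ℤ) : ℚ) / ((1 : ℤ) : ℚ)) 59 = 1 := by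
    have e : (-11 + ((1 : ℤ) : ℚ) * ((15 : ℤ) : ℚ) / ((1 : ℤ) : ℚ)) = 4 := by norm_num
    rw [e, legQ]
    norm_num
  rw [R2, h2, h1]
  norm_num

/-- The congruence for `S_1(p)` fails for `p = 31, 37` (`p ≡ 1 (mod 3)`) and for `p = 59` (`p ≡ 2 (mod 3)`), so that the
assertion of Q1 is false. -/
theorem result :
    (¬ Cong 31 2 (S1 31) (R1 31 5 3) ∧ ¬ Cong 37 2 (S1 37) (R1 37 7 3) ∧ ¬ Cong 59 2 (S1 59) (R2 59 15 1)) ∧
    ¬ ∀ p : ℕ, p.Prime → 11 < p → jacobiSym p 11 = 1 → ∀ x y : ℤ, 4 * (p : ℤ) = x ^ 2 + 11 * y ^ 2 →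
      Cong p 2 (S1 p) (eps p * S2 p) ∧ (p % 3 = 1 → Cong p 2 (S1 p) (R1 p x y)) ∧
        (p % 3 = 2 → Cong p 2 (S1 p) (R2 p x y)) :=
  ⟨⟨fail31, fail37, fail59⟩, fun h => fail31
    ((h 31 (by norm_num) (by norm_num) (by norm_num) 5 3 (by norm_num)).2.1 (by norm_num))⟩

end Pool.Agent.Results.MP_34a732_nt.FailsAsStated
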